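import Pool.Agent.H200C.Stm

/-! Project CH, lemmas CH13 and CH14: taking out a curve `H` times. -/

set_option autoImplicit false

namespace Pool.Agent.Q104.CH

open Finset Polynomial Pool.Agent.H200C Pool.Agent.TH641.UM

theorem VO_of_smul (hV : VOF) {R : Type} [CommRing R] [IsDomain R] {m : ℕ} {x y c : R}
    {f : R[X][X]} (hc : c ≠ 0) (h : VO m x y (C (C c) * f)) : VO m x y f := by
  intro i k hik
  have h1 := h i k hik
  rw [hV.smul] at h1
  exact (mul_eq_zero.1 h1).resolve_left hc

theorem VO_map (hV : VOF) {R R' : Type} [CommRing R] [CommRing R'] (φ : R →+* R') {m : ℕ}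
    {x y : R} {f : R[X][X]} (h : VO m x y f) : VO m (φ x) (φ y) (f.map (mapRingHom φ)) := by
  intro i k hik
  rw [hV.map, h i k hik, map_zero]

theorem In_map {R R' : Type} [CommRing R] [CommRing R'] (φ : R →+* R') {S : Set (ℕ × ℕ)}
    {f : R[X][X]} (h : In S f) : In S (f.map (mapRingHom φ)) := by
  intro a b hab
  refine h a b fun h0 => hab ?_
  rw [coeff_map, coe_mapRingHom, coeff_map, h0, map_zero]

/-- the largest common power -/
theorem exN {A J : Type} [CommRing A] [IsDomain A] {t : A} (ht : t ≠ 0) (H : ℕ) (κ : J → ℕ)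
    (c : J → A) (hκ : ∀ j, κ j < H) (hc : ∃ j, ¬ t ∣ c j) :
    ∃ N < H, ∃ γ : J → A, (∀ j, t ^ κ j * c j = t ^ N * γ j) ∧ ∃ j, ¬ t ∣ γ j := by
  classical
  have h0 : ∃ n, ¬ ∀ j, t ^ n ∣ t ^ κ j * c j := by
    refine ⟨H, fun h => ?_⟩
    obtain ⟨j, hj⟩ := hc
    refine hj ?_
    obtain ⟨a, ha⟩ := h j
    have e1 : t ^ H = t ^ κ j * (t * t ^ (H - κ j - 1)) := by
      rw [← pow_succ', ← pow_add]; congr 1; have := hκ j; omega
    rw [e1, mul_assoc] at ha
    have := mul_left_cancel₀ (pow_ne_zero _ ht) ha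
    exact ⟨t ^ (H - κ j - 1) * a, by rw [this]; ring⟩
  have hH : ¬ ∀ j, t ^ H ∣ t ^ κ j * c j := by
    intro h
    obtain ⟨j, hj⟩ := hc
    refine hj ?_
    obtain ⟨a, ha⟩ := h j
    have e1 : t ^ H = t ^ κ j * (t * t ^ (H - κ j - 1)) := by
      rw [← pow_succ', ← pow_add]; congr 1; have := hκ j; omega
    rw [e1, mul_assoc] at ha
    have := mul_left_cancel₀ (pow_ne_zero _ ht) ha
    exact ⟨t ^ (H - κ j - 1) * a, by rw [this]; ring⟩
  have h1 := Nat.find_spec h0
  have h2 : Nat.find h0 ≤ H := Nat.find_min' h0 hH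
  have h3 : Nat.find h0 ≠ 0 := by
    intro h
    rw [h] at h1
    exact h1 fun j => by simp
  obtain ⟨N, hN⟩ := Nat.exists_eq_succ_of_ne_zero h3
  have h4 : ∀ j, t ^ N ∣ t ^ κ j * c j := by
    by_contra h
    exact absurd (Nat.find_min' h0 h) (by omega)
  choose γ hγ using h4
  refine ⟨N, by omega, γ, hγ, ?_⟩
  by_contra h
  push Not at h
  refine h1 fun j => ?_
  rw [hγ j, hN, Nat.succ_eq_add_one, pow_succ]
  exact mul_dvd_mul_left _ (h j)

theorem exN3 {R J : Type} [CommRing R] [IsDomain R] {t : R} (ht : t ≠ 0) (H : ℕ) (κ : J → ℕ)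
    (c : J → R[X][X]) (hκ : ∀ j, κ j < H) (hc : ∃ j, ¬ C (C t) ∣ c j) :
    ∃ N < H, ∃ γ : J → R[X][X], (∀ j, C (C (t ^ κ j)) * c j = C (C (t ^ N)) * γ j) ∧
      ∃ j, ¬ C (C t) ∣ γ j := by
  have h := exN (t := (C (C t) : R[X][X])) (C_ne_zero.2 (C_ne_zero.2 ht)) H κ c hκ hc
  simpa only [C_pow] using h

theorem taylor_sub_C {R : Type} [CommRing R] (p : R) : taylor p (X - C p) = X := by
  rw [map_sub, taylor_X, taylor_C]; ring

theorem CX_pow {R : Type} [CommRing R] (c : R) (k : ℕ) :
    (C c * X : R[X]) ^ k = C (c ^ k) * X ^ k := by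
  rw [mul_pow, ← C_pow]

theorem taylor_smul_comp {R : Type} [CommRing R] (P c : R) (g q : R[X]) :
    (taylor P (C c * g)).comp q = C c * (taylor P g).comp q := by
  rw [taylor_mul, taylor_C, mul_comp, C_comp]

theorem taylor_term {R : Type} [CommRing R] (P : R) (k : ℕ) (g q : R[X]) :
    (taylor P ((X - C P) ^ k * g)).comp q = q ^ k * (taylor P g).comp q := by
  rw [taylor_mul, taylor_pow, taylor_sub_C, mul_comp, pow_comp, X_comp]

theorem limit (hV : VOF) {K : Type} [Field K] (p : K[X]) {H N : ℕ} (hN : N < H)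
    (r s : ℕ → K[X][X][X]) (f' : K[X][X][X])
    (hs : ∀ k < H, C (C (X ^ k)) * r k = C (C (X ^ N)) * s k) {m : ℕ} {x y : K}
    (h : VO m (C x) ((p.map C).eval (C x) + X * C y)
      (∑ k ∈ range H, (X - C (p.map C)) ^ k * r k + (X - C (p.map C)) ^ H * f')) :
    VO m x y (∑ k ∈ range H, C (((s k).eval (p.map C)).map (evalRingHom 0)) * X ^ k) := by
  set P : K[X][X] := p.map C with hP
  set q : K[X][X][X] := C (C X) * X with hq
  set g' : K[X][X][X] := ∑ k ∈ range H, X ^ k * (taylor P (s k)).comp q +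
    C (C (X ^ (H - N))) * X ^ H * (taylor P f').comp q with hg'
  rw [add_comm] at h
  have h1 := (hV.shift _ _ _ _ _).1 h
  have h2 : VO m (C x) (C y) ((taylor P (∑ k ∈ range H, (X - C P) ^ k * r k +
      (X - C P) ^ H * f')).comp q) := by
    refine hV.substY (C X) ?_
    rw [eval_C, mul_comm]
    exact h1
  have hqk : ∀ k : ℕ, q ^ k = C (C (X ^ k)) * X ^ k := by
    intro k
    rw [hq, CX_pow, ← C_pow]
  have key : (taylor P (∑ k ∈ range H, (X - C P) ^ k * r k + (X - C P) ^ H * f')).comp q =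
      C (C (X ^ N)) * g' := by
    rw [map_add, map_sum, add_comp, Polynomial.sum_comp, hg', mul_add, mul_sum]
    congr 1
    · refine sum_congr rfl fun k hk => ?_
      rw [taylor_term, hqk]
      have e1 := taylor_smul_comp P (C (X ^ k)) (r k) q
      rw [hs k (mem_range.1 hk), taylor_smul_comp] at e1
      rw [mul_right_comm, ← e1]
      ring
    · rw [taylor_term, hqk]
      have e2 : (C (C (X ^ H)) : K[X][X][X]) = C (C (X ^ N)) * C (C (X ^ (H - N))) := by
        rw [← C_mul, ← C_mul, ← pow_add]; congr 3; omega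
      rw [e2]; ring
  rw [key] at h2
  have h3 := VO_of_smul hV (pow_ne_zero _ X_ne_zero) h2
  have h4 := VO_map hV (evalRingHom (0 : K)) h3
  have e5 : g'.map (mapRingHom (evalRingHom (0 : K))) =
      ∑ k ∈ range H, C (((s k).eval P).map (evalRingHom 0)) * X ^ k := by
    have hq0 : q.map (mapRingHom (evalRingHom (0 : K))) = 0 := by
      rw [hq]; simp
    have hc0 : ∀ g : K[X][X][X], ((taylor P g).comp q).map (mapRingHom (evalRingHom (0 : K))) =
        C ((g.eval P).map (evalRingHom 0)) := by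
      intro g
      rw [Polynomial.map_comp, hq0, comp_zero, eval_zero_map, taylor_eval, zero_add,
        coe_mapRingHom]
    rw [hg', Polynomial.map_add, Polynomial.map_sum, Polynomial.map_mul, Polynomial.map_mul]
    have hz : (C (C (X ^ (H - N))) : K[X][X][X]).map (mapRingHom (evalRingHom (0 : K))) = 0 := by
      have : H - N ≠ 0 := by omega
      simp [this]
    rw [hz, zero_mul, zero_mul, add_zero]
    refine sum_congr rfl fun k _ => ?_
    rw [Polynomial.map_mul, hc0, Polynomial.map_pow, map_X, mul_comm]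
  rw [e5] at h4
  simpa using h4

theorem quot1 (hV : VOF) {R : Type} [CommRing R] {p : R[X]} {H : ℕ} {f : R[X][X]} {m : ℕ} {η : R}
    (h : VO m η (p.eval η) ((X - C p) ^ H * f)) : VO (m - H) η (p.eval η) f := by
  have h1 : VO m η 0 (X ^ H * taylor p f) := by
    have := (hV.shift m η 0 p ((X - C p) ^ H * f)).1 (by rwa [zero_add])
    rwa [taylor_mul, taylor_pow, taylor_sub_C] at this
  have := (hV.shift (m - H) η 0 p f).2 (hV.mulX0 H h1)
  rwa [zero_add] at this

theorem quot2 (hV : VOF) {R : Type} [CommRing R] [IsDomain R] {p : R[X]} {H : ℕ} {f : R[X][X]}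
    {m : ℕ} {x y : R} (hy : y ≠ p.eval x) (h : VO m x y ((X - C p) ^ H * f)) : VO m x y f := by
  have e : y = (y - p.eval x) + p.eval x := by ring
  rw [e] at h ⊢
  have h1 : VO m x (y - p.eval x) (X ^ H * taylor p f) := by
    have := (hV.shift m x (y - p.eval x) p ((X - C p) ^ H * f)).1 h
    rwa [taylor_mul, taylor_pow, taylor_sub_C] at this
  exact (hV.shift m x _ p f).2 (hV.mulX H (sub_ne_zero.2 hy) h1)

theorem ms_comp {ι : Type} [Fintype ι] (w : ι → ℕ) (f : ℕ → ℕ) :
    ms (fun i => f (w i)) = (ms w).map f := by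
  unfold ms
  rw [← Multiset.coe_mapAddMonoidHom, map_sum]
  simp

theorem cv_natDegree {K : Type} [Field K] {e : ℕ} (α : Fin (e + 1) → K) (h : α (Fin.last e) ≠ 0) :
    (cv e α).natDegree = e := by
  refine natDegree_eq_of_le_of_coeff_ne_zero ?_ ?_
  · refine natDegree_sum_le_of_forall_le _ _ fun t _ => ?_
    exact (natDegree_C_mul_X_pow_le _ _).trans (by omega)
  · unfold cv
    rw [finsetSum_coeff, Finset.sum_eq_single (Fin.last e)]
    · simpa using h
    · intro b _ hb
      rw [coeff_C_mul_X_pow, if_neg]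
      intro h'
      exact hb (Fin.ext h'.symm)
    · simp

theorem St_finite {b σ : ℤ} (hσ : 0 ≤ σ) (H : ℕ) : (St b σ H).Finite := by
  refine Set.Finite.subset ((Finset.range (b.toNat + 1) ×ˢ Finset.range H).finite_toSet) ?_
  rintro ⟨a, k⟩ ⟨h1, h2⟩
  simp only [] at h1 h2
  have : (0 : ℤ) ≤ σ * k := by positivity
  simp only [coe_product, coe_range, Set.mem_prod, Set.mem_Iio]
  omega

theorem Tr_finite (d : ℕ) : (Tr d).Finite := by
  refine Set.Finite.subset ((Finset.range (d + 1) ×ˢ Finset.range (d + 1)).finite_toSet) ?_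
  rintro ⟨a, k⟩ h1
  have h2 : a + k ≤ d := h1
  simp only [coe_product, coe_range, Set.mem_prod, Set.mem_Iio]
  omega

theorem common (hGB : GenB) (hGC : GenC) (hE : Exi) (hM : Ms) {e : ℕ} (H : ℕ)
    (W M1 M2 : Multiset ℕ) {S1 S2 : Set (ℕ × ℕ)} (hS1 : S1.Finite) (hS2 : S2.Finite)
    (h1 : EB W M1 S1) (h2 : EC e (W.map fun w => w - H) M2 S2) :
    ∃ (K : Type) (_ : Field K) (_ : CharZero K) (p : K[X]) (η : Fin W.toList.length → K)
      (x1 y1 : Fin M1.toList.length → K) (x2 y2 : Fin M2.toList.length → K),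
      p.natDegree = e ∧ (∀ j, y2 j ≠ p.eval (x2 j)) ∧
      Inj K (Sum.elim (fam W) (fam M1)) (Sum.elim η x1) (Sum.elim (fun _ => 0) y1) S1 ∧
      Inj K (Sum.elim (fun i => fam W i - H) (fam M2)) (Sum.elim η x2)
        (Sum.elim (fun i => p.eval (η i)) y2) S2 := by
  obtain ⟨K, _, _, s, hs⟩ := hE (Fin (e + 1) ⊕ Fin W.toList.length ⊕
    (Fin M1.toList.length ⊕ Fin M2.toList.length) × Fin 2)
  have h2' : EmC e (fun i => fam W i - H) (fam M2) S2 := by
    refine (hM ?_ rfl).2 e h2
    have e1 : ms (fam (W.map fun w => w - H)) = W.map fun w => w - H := exists_fam _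
    have e2 : ms (fun i => fam W i - H) = W.map fun w => w - H := by
      rw [ms_comp (fam W) (fun w => w - H)]
      congr 1
      exact exists_fam _
    rw [e1, e2]
  refine ⟨K, inferInstance, inferInstance, cv e fun t => s (Sum.inl t),
    fun i => s (Sum.inr (Sum.inl i)), fun j => s (Sum.inr (Sum.inr (Sum.inl j, 0))),
    fun j => s (Sum.inr (Sum.inr (Sum.inl j, 1))), fun j => s (Sum.inr (Sum.inr (Sum.inr j, 0))),
    fun j => s (Sum.inr (Sum.inr (Sum.inr j, 1))), cv_natDegree _ (hs.ne_zero _), ?_, ?_, ?_⟩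
  · intro j hj
    have e1 : (cv e fun t => s (Sum.inl t)).eval (s (Sum.inr (Sum.inr (Sum.inr j, 0)))) =
        MvPolynomial.aeval s (∑ t : Fin (e + 1), (MvPolynomial.X (Sum.inl t) : MvPolynomial _ ℚ) *
          MvPolynomial.X (Sum.inr (Sum.inr (Sum.inr j, 0))) ^ (t : ℕ)) := by
      unfold cv
      rw [eval_finsetSum, map_sum]
      refine sum_congr rfl fun t _ => ?_
      simp
    have e2 : s (Sum.inr (Sum.inr (Sum.inr j, 1))) = MvPolynomial.aeval s
        (MvPolynomial.X (Sum.inr (Sum.inr (Sum.inr j, 1))) : MvPolynomial _ ℚ) := by simp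
    have h3 := hs (e2.symm.trans (hj.trans e1))
    classical
    have h4 := congrArg (MvPolynomial.eval fun z => if z = Sum.inr (Sum.inr (Sum.inr j, 1)) then
      (1 : ℚ) else 0) h3
    simp at h4
  · let φ : Fin W.toList.length ⊕ Fin M1.toList.length × Fin 2 → (Fin (e + 1) ⊕
        Fin W.toList.length ⊕ (Fin M1.toList.length ⊕ Fin M2.toList.length) × Fin 2) :=
      Sum.elim (fun i => Sum.inr (Sum.inl i)) (fun j => Sum.inr (Sum.inr (Sum.inl j.1, j.2)))
    have hφ : Function.Injective φ := by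
      rintro (i | ⟨j, c⟩) (i' | ⟨j', c'⟩) h
      · simpa [φ] using h
      · simp [φ] at h
      · simp [φ] at h
      · simpa [φ] using h
    exact hGB hS1 h1 (s ∘ φ) (hs.comp φ hφ)
  · let φ : Fin (e + 1) ⊕ Fin W.toList.length ⊕ Fin M2.toList.length × Fin 2 → (Fin (e + 1) ⊕
        Fin W.toList.length ⊕ (Fin M1.toList.length ⊕ Fin M2.toList.length) × Fin 2) :=
      Sum.elim (fun t => Sum.inl t) (Sum.elim (fun i => Sum.inr (Sum.inl i))
        (fun j => Sum.inr (Sum.inr (Sum.inr j.1, j.2))))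
    have hφ : Function.Injective φ := by
      rintro (t | i | ⟨j, c⟩) (t' | i' | ⟨j', c'⟩) h
      · simpa [φ] using h
      · simp [φ] at h
      · simp [φ] at h
      · simp [φ] at h
      · simpa [φ] using h
      · simp [φ] at h
      · simp [φ] at h
      · simp [φ] at h
      · simpa [φ] using h
    exact hGC hS2 h2' (s ∘ φ) (hs.comp φ hφ)

variable {K : Type} [Field K] {ι κ1 κ2 : Type}

/-- first coordinates -/
noncomputable def px (η : ι → K) (x1 : κ1 → K) (x2 : κ2 → K) : ι ⊕ κ1 ⊕ κ2 → K[X] :=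
  Sum.elim (fun i => C (η i)) (Sum.elim (fun j => C (x1 j)) fun j => C (x2 j))

/-- second coordinates -/
noncomputable def py (p : K[X]) (η : ι → K) (x1 y1 : κ1 → K) (y2 : κ2 → K) :
    ι ⊕ κ1 ⊕ κ2 → K[X] :=
  Sum.elim (fun i => (p.map C).eval (C (η i)))
    (Sum.elim (fun j => (p.map C).eval (C (x1 j)) + X * C (y1 j)) fun j => C (y2 j))

theorem toEC (hM : Ms) [CharZero K] {e : ℕ} {W M1 M2 : Multiset ℕ} {S : Set (ℕ × ℕ)} (p : K[X])
    (hp : p.natDegree ≤ e) (η : Fin W.toList.length → K) (x1 y1 : Fin M1.toList.length → K)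
    (x2 y2 : Fin M2.toList.length → K)
    (h : Inj (FractionRing K[X]) (Sum.elim (fam W) (Sum.elim (fam M1) (fam M2)))
      (fun i => algebraMap K[X] (FractionRing K[X]) (px η x1 x2 i))
      (fun i => algebraMap K[X] (FractionRing K[X]) (py p η x1 y1 y2 i)) S) :
    EC e W (M1 + M2) S := by
  have h1 : EmC e (fam W) (Sum.elim (fam M1) (fam M2)) S := by
    refine ⟨FractionRing K[X], inferInstance,
      charZero_of_injective_algebraMap (IsFractionRing.injective K[X] (FractionRing K[X])),
      (p.map C).map (algebraMap K[X] (FractionRing K[X])),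
      fun i => algebraMap K[X] (FractionRing K[X]) (C (η i)),
      fun j => algebraMap K[X] (FractionRing K[X]) (px η x1 x2 (Sum.inr j)),
      fun j => algebraMap K[X] (FractionRing K[X]) (py p η x1 y1 y2 (Sum.inr j)),
      (natDegree_map_le).trans (natDegree_map_le.trans hp), ?_⟩
    intro f hf hf'
    refine h f hf fun i => ?_
    have h2 := hf' i
    rcases i with i | i
    · simp only [Sum.elim_inl, eval_map_algebraMap] at h2 ⊢
      have e1 : algebraMap K[X] (FractionRing K[X]) (py p η x1 y1 y2 (Sum.inl i)) =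
          (aeval ((algebraMap K[X] (FractionRing K[X])) (C (η i)))) (p.map C) := by
        rw [aeval_algebraMap_apply, coe_aeval_eq_eval]
        rfl
      rw [e1]
      exact h2
    · exact h2
  refine (hM rfl ?_).2 e h1
  have e1 : ms (fam (M1 + M2)) = M1 + M2 := exists_fam _
  have e2 : ms (fam M1) = M1 := exists_fam _
  have e3 : ms (fam M2) = M2 := exists_fam _
  rw [ms_sum, e1, e2, e3]

theorem case1 (hV : VOF) {p : K[X]} {H : ℕ} {w : ι → ℕ} {v1 : κ1 → ℕ} {v2 : κ2 → ℕ}
    {η : ι → K} {x1 y1 : κ1 → K} {x2 y2 : κ2 → K} (hy : ∀ j, y2 j ≠ p.eval (x2 j))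
    {S2 : Set (ℕ × ℕ)}
    (hI2 : Inj K (Sum.elim (fun i => w i - H) v2) (Sum.elim η x2)
      (Sum.elim (fun i => p.eval (η i)) y2) S2)
    {f F : K[X][X][X]} (hF : In S2 F)
    (hm : ∀ i, VO (Sum.elim w (Sum.elim v1 v2) i) (px η x1 x2 i) (py p η x1 y1 y2 i) f)
    {r : ℕ → K[X][X][X]}
    (hf : f = ∑ k ∈ range H, (X - C (p.map C)) ^ k * r k + (X - C (p.map C)) ^ H * F)
    (hr : ∀ k < H, (r k).map (mapRingHom (evalRingHom 0)) = 0) :
    F.map (mapRingHom (evalRingHom 0)) = 0 := by
  have hp0 : (p.map C).map (evalRingHom (0 : K)) = p := by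
    rw [Polynomial.map_map]
    have : (evalRingHom (0 : K)).comp C = RingHom.id K := by ext; simp
    rw [this, Polynomial.map_id]
  have e0 : f.map (mapRingHom (evalRingHom (0 : K))) =
      (X - C p) ^ H * F.map (mapRingHom (evalRingHom 0)) := by
    rw [hf, Polynomial.map_add, Polynomial.map_sum, Finset.sum_eq_zero, zero_add,
      Polynomial.map_mul, Polynomial.map_pow, Polynomial.map_sub, map_X, map_C, coe_mapRingHom,
      hp0]
    intro k hk
    rw [Polynomial.map_mul, hr k (mem_range.1 hk), mul_zero]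
  refine hI2 _ (In_map _ hF) fun i => ?_
  rcases i with i | j
  · have h1 := VO_map hV (evalRingHom (0 : K)) (hm (Sum.inl i))
    rw [e0] at h1
    have e1 : evalRingHom (0 : K) (py p η x1 y1 y2 (Sum.inl i)) = p.eval (η i) := by
      have : (p.map C).eval (C (η i)) = C (p.eval (η i)) := by
        rw [eval_map, eval₂_hom]
      simp only [py, Sum.elim_inl, this]
      simp
    have e2 : evalRingHom (0 : K) (px η x1 x2 (Sum.inl i)) = η i := by simp [px]
    rw [e1, e2] at h1
    exact quot1 hV h1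
  · have h1 := VO_map hV (evalRingHom (0 : K)) (hm (Sum.inr (Sum.inr j)))
    rw [e0] at h1
    have e1 : evalRingHom (0 : K) (py p η x1 y1 y2 (Sum.inr (Sum.inr j))) = y2 j := by simp [py]
    have e2 : evalRingHom (0 : K) (px η x1 x2 (Sum.inr (Sum.inr j))) = x2 j := by simp [px]
    rw [e1, e2] at h1
    exact quot2 hV (hy j) h1

theorem case2 (hV : VOF) {p : K[X]} {H : ℕ} {w : ι → ℕ} {v1 : κ1 → ℕ} {v2 : κ2 → ℕ}
    {η : ι → K} {x1 y1 : κ1 → K} {x2 y2 : κ2 → K} {S1 : Set (ℕ × ℕ)}
    (hI1 : Inj K (Sum.elim w v1) (Sum.elim η x1) (Sum.elim (fun _ => 0) y1) S1)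
    {f F : K[X][X][X]}
    (hm : ∀ i, VO (Sum.elim w (Sum.elim v1 v2) i) (px η x1 x2 i) (py p η x1 y1 y2 i) f)
    {r s : ℕ → K[X][X][X]}
    (hf : f = ∑ k ∈ range H, (X - C (p.map C)) ^ k * r k + (X - C (p.map C)) ^ H * F) {N : ℕ}
    (hN : N < H) (hs : ∀ k < H, C (C (X ^ k)) * r k = C (C (X ^ N)) * s k)
    (hG : In S1 (∑ k ∈ range H, C (((s k).eval (p.map C)).map (evalRingHom 0)) * X ^ k)) :
    ∀ k < H, ((s k).eval (p.map C)).map (evalRingHom 0) = 0 := by
  have h0 := hI1 _ hG fun i => by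
    rcases i with i | j
    · refine limit hV p hN r s F hs ?_
      have := hm (Sum.inl i)
      rw [hf] at this
      simpa [px, py] using this
    · refine limit hV p hN r s F hs ?_
      have := hm (Sum.inr (Sum.inl j))
      rw [hf] at this
      exact this
  intro k hk
  have h1 := congrArg (fun g : K[X][X] => g.coeff k) h0
  simp only [finsetSum_coeff, coeff_C_mul_X_pow, coeff_zero] at h1
  rw [Finset.sum_eq_single k] at h1
  · simpa using h1
  · intro b _ hb
    rw [if_neg (Ne.symm hb)]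
  · intro h
    exact absurd (mem_range.2 hk) h

theorem dvd_iff0 {K : Type} [Field K] (F : K[X][X][X]) :
    C (C X) ∣ F ↔ F.map (mapRingHom (evalRingHom (0 : K))) = 0 := by
  constructor
  · rintro ⟨G, rfl⟩
    rw [Polynomial.map_mul]
    simp
  · intro h
    rw [C_dvd_iff_dvd_coeff]
    intro b
    rw [C_dvd_iff_dvd_coeff]
    intro a
    rw [X_dvd_iff]
    have h1 := congrArg (fun g : K[X][X] => (g.coeff b).coeff a) h
    simpa [coeff_zero_eq_eval_zero] using h1

theorem eval_map0 {K : Type} [Field K] (p : K[X]) (F : K[X][X][X]) :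
    ((F.eval (p.map C)).map (evalRingHom (0 : K))) =
      (F.map (mapRingHom (evalRingHom (0 : K)))).eval p := by
  have hp0 : (mapRingHom (evalRingHom (0 : K))) (p.map C) = p := by
    rw [coe_mapRingHom, Polynomial.map_map]
    have : (evalRingHom (0 : K)).comp C = RingHom.id K := by ext; simp
    rw [this, Polynomial.map_id]
  have := eval₂_hom (p := F) (mapRingHom (evalRingHom (0 : K))) (p.map C)
  rw [hp0] at this
  rw [eval_map, this, coe_mapRingHom]

theorem cutCE : S_CutCE := by
  intro hV hGB hGC hE hDE hM hD e d H W M1 M2 he hH h1 h2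
  obtain ⟨K, _, _, p, η, x1, y1, x2, y2, hp, hy, hI1, hI2⟩ :=
    common hGB hGC hE hM H W M1 M2 (St_finite (by positivity) H) (Tr_finite (d - e * H)) h1 h2
  refine toEC hM p hp.le η x1 y1 x2 y2 (hDE _ _ _ _ (Tr_finite d) fun f hf hfm => ?_)
  have hp0 : p ≠ 0 := by
    rintro rfl
    rw [natDegree_zero] at hp
    omega
  have hpu : IsUnit p.leadingCoeff := isUnit_iff_ne_zero.2 (leadingCoeff_ne_zero.2 hp0)
  have hPd : (p.map C).natDegree = e := by rw [natDegree_map_eq_of_injective C_injective, hp]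
  have hPu : IsUnit (p.map C).leadingCoeff := by
    rw [leadingCoeff_map_of_injective C_injective]
    exact hpu.map C
  obtain ⟨r, F, hff, hr, hF⟩ := (hD (R := K[X]) (p.map C) e he hPd hPu).1 H d f hH hf
  by_cases hall : ∀ k < H, (r k).map (mapRingHom (evalRingHom (0 : K))) = 0
  · have h3 := case1 hV hy hI2 hF hfm hff hall
    rw [hff, Polynomial.map_add, Polynomial.map_sum, Finset.sum_eq_zero, zero_add,
      Polynomial.map_mul, h3, mul_zero]
    intro k hk
    rw [Polynomial.map_mul, hall k (mem_range.1 hk), mul_zero]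
  · push Not at hall
    obtain ⟨k0, hk0, hrk0⟩ := hall
    obtain ⟨N, hN, γ, hγ, j, hj⟩ := exN3 (R := K[X]) (X_ne_zero : (X : K[X]) ≠ 0) H
      (fun j : Fin H => (j : ℕ)) (fun j => r j) (fun j => j.2)
      ⟨⟨k0, hk0⟩, fun h => hrk0 ((dvd_iff0 _).1 h)⟩
    set s : ℕ → K[X][X][X] := fun k => if h : k < H then γ ⟨k, h⟩ else 0 with hsd
    have hs : ∀ k < H, C (C (X ^ k)) * r k = C (C (X ^ N)) * s k := by
      intro k hk
      have := hγ ⟨k, hk⟩
      simp only [hsd, dif_pos hk]
      exact this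
    have hco : ∀ k < H, ∀ a b : ℕ, X ^ k * ((r k).coeff b).coeff a =
        X ^ N * ((s k).coeff b).coeff a := by
      intro k hk a b
      have := congrArg (fun g : K[X][X][X] => (g.coeff b).coeff a) (hs k hk)
      simpa only [coeff_C_mul] using this
    have hco' : ∀ k < H, ∀ a b : ℕ, ((s k).coeff b).coeff a ≠ 0 →
        ((r k).coeff b).coeff a ≠ 0 := by
      intro k hk a b h h'
      have := hco k hk a b
      rw [h', mul_zero] at this
      exact h ((mul_eq_zero.1 this.symm).resolve_left (pow_ne_zero _ X_ne_zero))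
    have hD2 := hD p e he hp hpu
    have h3 := case2 hV hI1 hfm hff hN hs (by
      intro a b hab
      rw [finsetSum_coeff] at hab
      simp only [coeff_C_mul_X_pow] at hab
      by_cases hb : b < H
      · rw [Finset.sum_eq_single b (fun b' _ hb' => if_neg (Ne.symm hb'))
          (fun h => absurd (mem_range.2 hb) h), if_pos rfl, eval_map0] at hab
        have h4 := le_natDegree_of_ne_zero hab
        have h5 := hD2.2.2.1 (d - e * b) ((s b).map (mapRingHom (evalRingHom (0 : K))))
          (In_map _ fun a' b' h => (hr b hb).1 a' b' (hco' b hb a' b' h))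
        have h6 : e * b ≤ d := (Nat.mul_le_mul_left e hb.le).trans hH
        have h7 : a ≤ e * (d - e * b) := h4.trans h5
        refine ⟨hb, ?_⟩
        have h8 : (a : ℤ) ≤ e * ((d : ℤ) - e * b) := by
          have : ((d - e * b : ℕ) : ℤ) = (d : ℤ) - e * b := by
            rw [Nat.cast_sub h6]; push_cast; ring
          rw [← this]
          exact_mod_cast h7
        push_cast
        nlinarith
      · rw [Finset.sum_eq_zero, coeff_zero] at hab
        · exact absurd rfl hab
        · intro k hk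
          rw [if_neg]
          rintro rfl
          exact hb (mem_range.1 hk))
    exfalso
    refine hj ((dvd_iff0 _).2 ?_)
    have h4 := h3 j j.2
    have hsj : s j = γ j := by simp [hsd]
    rw [eval_map0, hsj] at h4
    refine hD2.2.1 _ ?_ h4
    intro a b hab
    refine (hr j j.2).2 a b (hco' j j.2 a b ?_)
    rw [hsj]
    intro h
    rw [coeff_map, coe_mapRingHom, coeff_map, h, map_zero] at hab
    exact hab rfl

theorem coefT {A : Type} [CommRing A] (T : Finset (ℕ × ℕ)) (α : ↥T → A) (q : ↥T) :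
    ((∑ q : ↥T, C (C (α q) * X ^ q.1.1) * X ^ q.1.2 : A[X][X]).coeff q.1.2).coeff q.1.1 = α q := by
  rw [finsetSum_coeff, finsetSum_coeff, Finset.sum_eq_single q]
  · rw [coeff_C_mul_X_pow, if_pos rfl, coeff_C_mul_X_pow, if_pos rfl]
  · intro q' _ hq'
    rw [coeff_C_mul_X_pow]
    split_ifs with h
    · rw [coeff_C_mul_X_pow]
      split_ifs with h'
      · exact absurd (Subtype.ext (Prod.ext h'.symm h.symm)) hq'
      · rfl
    · rw [coeff_zero]
  · intro h
    exact absurd (mem_univ _) h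

theorem In_T {A : Type} [CommRing A] (T : Finset (ℕ × ℕ)) (α : ↥T → A) :
    In (↑T : Set (ℕ × ℕ)) (∑ q : ↥T, C (C (α q) * X ^ q.1.1) * X ^ q.1.2 : A[X][X]) := by
  intro a b hab
  rw [finsetSum_coeff, finsetSum_coeff] at hab
  obtain ⟨q, _, hq⟩ := Finset.exists_ne_zero_of_sum_ne_zero hab
  rw [coeff_C_mul_X_pow] at hq
  split_ifs at hq with h
  · rw [coeff_C_mul_X_pow] at hq
    split_ifs at hq with h'
    · have : (a, b) = q.1 := Prod.ext h' h
      rw [this]
      exact q.2
    · exact absurd rfl hq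
  · rw [coeff_zero] at hq
    exact absurd rfl hq

theorem cutCS : S_CutCS := by
  classical
  intro hV hGB hGC hE hDg hXc hM hD e d H W M1 M2 he hH h1 h2
  obtain ⟨T1, hT1, hc1, h1⟩ := h1
  obtain ⟨T2, hT2, hc2, h2⟩ := h2
  obtain ⟨K, _, _, p, η, x1, y1, x2, y2, hp, hy, hI1, hI2⟩ :=
    common hGB hGC hE hM H W M1 M2 T1.finite_toSet T2.finite_toSet h1 h2
  have hp0 : p ≠ 0 := by
    rintro rfl
    rw [natDegree_zero] at hp
    omega
  have hpu : IsUnit p.leadingCoeff := isUnit_iff_ne_zero.2 (leadingCoeff_ne_zero.2 hp0)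
  have hPd : (p.map C).natDegree = e := by rw [natDegree_map_eq_of_injective C_injective, hp]
  have hPu : IsUnit (p.map C).leadingCoeff := by
    rw [leadingCoeff_map_of_injective C_injective]
    exact hpu.map C
  have hDP := hD (R := K[X]) (p.map C) e he hPd hPu
  have hkH : ∀ q : ↥T1, q.1.2 < H := fun q => (hT1 q.2).1
  have hed : ∀ k < H, e * k + e ≤ d := by
    intro k hk
    have := Nat.mul_le_mul_left e (Nat.succ_le_of_lt hk)
    rw [Nat.mul_succ] at this
    exact this.trans hH
  have hR : ∀ q : ↥T1, ∃ R : K[X][X][X], In (Tr (d - e * q.1.2)) R ∧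
      R.eval (p.map C) = X ^ q.1.1 := by
    intro q
    have h3 := hed q.1.2 (hkH q)
    refine hDP.2.2.2.1 (d - e * q.1.2) q.1.1 (by omega) ?_
    have h4 : ((q.1.1 : ℕ) : ℤ) + ((e ^ 2 : ℕ) : ℤ) * q.1.2 ≤ (e : ℤ) * (d + 1 - e) := (hT1 q.2).2
    have h5 : ((d - e * q.1.2 + 1 - e : ℕ) : ℤ) = (d : ℤ) - e * q.1.2 + 1 - e := by
      have h6 : e * q.1.2 ≤ d := by omega
      have h7 : e ≤ d - e * q.1.2 + 1 := by omega
      rw [Nat.cast_sub h7, Nat.cast_add, Nat.cast_sub h6]
      push_cast; ring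
    have h6 : (q.1.1 : ℤ) ≤ ((e * (d - e * q.1.2 + 1 - e) : ℕ) : ℤ) := by
      rw [Nat.cast_mul, h5]
      push_cast at h4 ⊢
      nlinarith
    exact_mod_cast h6
  choose R hR1 hR2 using hR
  set g : ↥T1 ⊕ ↥T2 → K[X][X][X] := Sum.elim (fun q => (X - C (p.map C)) ^ q.1.2 * R q)
    (fun q => (X - C (p.map C)) ^ H * (C (X ^ q.1.1) * X ^ q.1.2)) with hgd
  have hg : ∀ j, In (Tr d) (g j) := by
    rintro (q | q)
    · exact hDP.2.2.2.2 q.1.2 d (R q) (by have := hed q.1.2 (hkH q); omega) (hR1 q)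
    · refine hDP.2.2.2.2 H d _ hH ?_
      intro a b hab
      rw [coeff_C_mul_X_pow] at hab
      split_ifs at hab with h
      · rw [coeff_X_pow] at hab
        split_ifs at hab with h'
        · have : (a, b) = q.1 := Prod.ext h' h
          rw [this]
          exact hT2 q.2
        · exact absurd rfl hab
      · rw [coeff_zero] at hab
        exact absurd rfl hab
  have h3 := hDg (Sum.elim (fam W) (Sum.elim (fam M1) (fam M2))) (px η x1 x2) (py p η x1 y1 y2) g
    (by
      intro c hc
      set F : K[X][X][X] := ∑ q : ↥T2, C (C (c (Sum.inr q)) * X ^ q.1.1) * X ^ q.1.2 with hF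
      set r : ℕ → K[X][X][X] := fun k => ∑ q : ↥T1 with q.1.2 = k, C (C (c (Sum.inl q))) * R q
        with hr
      have hf : ∑ j, C (C (c j)) * g j =
          ∑ k ∈ range H, (X - C (p.map C)) ^ k * r k + (X - C (p.map C)) ^ H * F := by
        rw [Fintype.sum_sum_type]
        refine congrArg₂ (· + ·) ?_ ?_
        · rw [← Finset.sum_fiberwise_of_maps_to (s := univ) (t := range H)
            (g := fun q : ↥T1 => q.1.2) (fun q _ => mem_range.2 (hkH q))]
          refine sum_congr rfl fun k _ => ?_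
          rw [hr, mul_sum]
          refine sum_congr rfl fun q hq => ?_
          rw [← (mem_filter.1 hq).2]
          simp only [hgd, Sum.elim_inl]
          ring
        · rw [hF, mul_sum]
          refine sum_congr rfl fun q _ => ?_
          simp only [hgd, Sum.elim_inr]
          rw [C_mul]
          ring
      by_cases hall : ∀ q : ↥T1, X ∣ c (Sum.inl q)
      · have h4 := case1 hV hy hI2 (In_T T2 _) hc hf (by
          intro k _
          rw [hr, Polynomial.map_sum]
          refine Finset.sum_eq_zero fun q _ => ?_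
          rw [Polynomial.map_mul, map_C, coe_mapRingHom, map_C]
          have : evalRingHom (0 : K) (c (Sum.inl q)) = 0 := by
            rw [coe_evalRingHom, ← coeff_zero_eq_eval_zero]
            exact X_dvd_iff.1 (hall q)
          rw [this]
          simp)
        rintro (q | q)
        · exact X_dvd_iff.1 (hall q)
        · have h5 := congrArg (fun g : K[X][X] => (g.coeff q.1.2).coeff q.1.1) h4
          simp only [coeff_map, coe_mapRingHom] at h5
          rw [coefT T2 (fun q => c (Sum.inr q)) q] at h5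
          rw [coeff_zero_eq_eval_zero]
          simpa using h5
      · exfalso
        push Not at hall
        obtain ⟨N, hN, γ, hγ, j, hj⟩ := exN (X_ne_zero : (X : K[X]) ≠ 0) H
          (fun q : ↥T1 => q.1.2) (fun q => c (Sum.inl q)) hkH hall
        set s : ℕ → K[X][X][X] := fun k => ∑ q : ↥T1 with q.1.2 = k, C (C (γ q)) * R q with hs
        have hG : ∑ k ∈ range H, C (((s k).eval (p.map C)).map (evalRingHom (0 : K))) * X ^ k =
            ∑ q : ↥T1, C (C (evalRingHom (0 : K) (γ q)) * X ^ q.1.1) * X ^ q.1.2 := by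
          rw [← Finset.sum_fiberwise_of_maps_to (s := univ) (t := range H)
            (g := fun q : ↥T1 => q.1.2) (fun q _ => mem_range.2 (hkH q))]
          refine sum_congr rfl fun k _ => ?_
          rw [hs]
          simp only []
          rw [eval_finsetSum, Polynomial.map_sum, map_sum, sum_mul]
          refine sum_congr rfl fun q hq => ?_
          rw [← (mem_filter.1 hq).2, eval_mul, hR2, eval_C, Polynomial.map_mul, map_C,
            Polynomial.map_pow, map_X]
        have h4 := case2 hV hI1 hc hf hN (s := s) (by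
          intro k _
          rw [hr, hs]
          simp only []
          rw [mul_sum, mul_sum]
          refine sum_congr rfl fun q hq => ?_
          have h5 := hγ q
          simp only [(mem_filter.1 hq).2] at h5
          rw [← mul_assoc, ← mul_assoc, ← C_mul, ← C_mul, ← C_mul, ← C_mul, h5]) (by
          rw [hG]
          exact In_T T1 _)
        have h5 : ∑ q : ↥T1, C (C (evalRingHom (0 : K) (γ q)) * X ^ q.1.1) * X ^ q.1.2 = 0 := by
          rw [← hG]
          refine Finset.sum_eq_zero fun k hk => ?_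
          rw [h4 k (mem_range.1 hk), C_0, zero_mul]
        have h6 := coefT T1 (fun q => evalRingHom (0 : K) (γ q)) j
        rw [h5] at h6
        refine hj (X_dvd_iff.2 ?_)
        rw [coeff_zero_eq_eval_zero]
        simpa using h6.symm)
  have hcard : Fintype.card (↥T1 ⊕ ↥T2) = T1.card + T2.card := by simp
  let E := Fintype.equivFinOfCardEq hcard
  obtain ⟨T, hT, hTc, hTI⟩ := hXc (Sum.elim (fam W) (Sum.elim (fam M1) (fam M2)))
    (fun i => algebraMap K[X] (FractionRing K[X]) (px η x1 x2 i))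
    (fun i => algebraMap K[X] (FractionRing K[X]) (py p η x1 y1 y2 i)) (Tr d)
    (fun i : Fin (T1.card + T2.card) => (g (E.symm i)).map
      (mapRingHom (algebraMap K[X] (FractionRing K[X])))) (fun i => In_map _ (hg _))
    (fun c hc => by
      have h4 := h3 (c ∘ E) (fun i => by
        have h5 := hc i
        rw [← E.sum_comp] at h5
        simpa using h5)
      funext i
      have := congrFun h4 (E.symm i)
      simpa using this)
  refine ⟨T, hT, ?_, toEC hM p hp.le η x1 y1 x2 y2 hTI⟩
  rw [hTc]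
  have e1 : TH2.NU.condM (M1 + M2) = TH2.NU.condM M1 + TH2.NU.condM M2 := by
    unfold TH2.NU.condM
    rw [Multiset.map_add, Multiset.sum_add]
  rw [e1]
  omega

end Pool.Agent.Q104.CH
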