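import Pool.Agent.H200C.Stm

/-! Project CH, lemma CH1: elementary properties of Taylor coefficients and multiplicities. -/

set_option autoImplicit false

namespace Pool.Agent.Q104.CH

open Finset Polynomial Pool.Agent.H200C

/-- the filtration -/
def Wt {R : Type} [CommRing R] (m : ℕ) (x : R) (g : R[X][X]) : Prop :=
  ∀ k < m, (X - C x) ^ (m - k) ∣ g.coeff k

section

variable {R : Type} [CommRing R]

theorem rows_pf (m : ℕ) (x y : R) (f : R[X][X]) :
    VO m x y f ↔ Wt m x (taylor (C y) f) := by
  constructor
  · intro h k hk
    rw [X_sub_C_pow_dvd_iff, X_pow_dvd_iff]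
    intro d hd
    exact h d k (by omega)
  · intro h i k hik
    have := h k (by omega)
    rw [X_sub_C_pow_dvd_iff, X_pow_dvd_iff] at this
    exact this i (by omega)

theorem Wt.mul {a b : ℕ} {x : R} {g h : R[X][X]} (hg : Wt a x g) (hh : Wt b x h) :
    Wt (a + b) x (g * h) := by
  intro k hk
  rw [coeff_mul]
  refine dvd_sum fun p hp => ?_
  rw [Finset.HasAntidiagonal.mem_antidiagonal] at hp
  have h1 : (X - C x) ^ (a - p.1) ∣ g.coeff p.1 := by
    rcases lt_or_ge p.1 a with h | h
    · exact hg _ h
    · rw [Nat.sub_eq_zero_of_le h, pow_zero]; exact one_dvd _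
  have h2 : (X - C x) ^ (b - p.2) ∣ h.coeff p.2 := by
    rcases lt_or_ge p.2 b with h' | h'
    · exact hh _ h'
    · rw [Nat.sub_eq_zero_of_le h', pow_zero]; exact one_dvd _
  refine dvd_trans (pow_dvd_pow _ ?_) (pow_add (X - C x) (a - p.1) (b - p.2) ▸ mul_dvd_mul h1 h2)
  omega

theorem Wt.zero (x : R) (g : R[X][X]) : Wt 0 x g := fun k hk => absurd hk (by omega)

theorem Wt.mono {a b : ℕ} {x : R} {g : R[X][X]} (hab : b ≤ a) (hg : Wt a x g) : Wt b x g :=
  fun k hk => (pow_dvd_pow _ (by omega)).trans (hg k (by omega))

theorem Wt.pow {x : R} {h : R[X][X]} (hh : Wt 1 x h) (n : ℕ) : Wt n x (h ^ n) := by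
  induction n with
  | zero => exact Wt.zero _ _
  | succ n ih => rw [pow_succ]; exact ih.mul hh

theorem Wt.sum {ι : Type} {a : ℕ} {x : R} (s : Finset ι) (g : ι → R[X][X])
    (hg : ∀ i ∈ s, Wt a x (g i)) : Wt a x (∑ i ∈ s, g i) := by
  intro k hk
  rw [finsetSum_coeff]
  exact dvd_sum fun i hi => hg i hi k hk

theorem Wt.C {a : ℕ} {x : R} {c : R[X]} (h : (X - Polynomial.C x) ^ a ∣ c) :
    Wt a x (Polynomial.C c) := by
  intro k hk
  rw [coeff_C]
  split_ifs with h0
  · subst h0; simpa using h
  · exact dvd_zero _

theorem Wt.comp {m : ℕ} {x : R} {g h : R[X][X]} (hg : Wt m x g) (hh : Wt 1 x h) :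
    Wt m x (g.comp h) := by
  rw [comp_eq_sum_left, Polynomial.sum_def]
  refine Wt.sum _ _ fun j _ => ?_
  rcases lt_or_ge j m with hj | hj
  · have h1 := (Wt.C (hg j hj)).mul (hh.pow j)
    rwa [Nat.sub_add_cancel hj.le] at h1
  · have h1 := (Wt.zero x (Polynomial.C (g.coeff j))).mul (hh.pow j)
    exact h1.mono (by omega)

theorem Wt.of_add {x : R} {q : R[X]} (hq : (X - Polynomial.C x) ∣ q) :
    Wt 1 x (X + Polynomial.C q) := by
  intro k hk
  have : k = 0 := by omega
  subst this
  simpa using hq

end

theorem vof : VOF where
  expl := by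
    intro R _ f x y i k
    induction f using Polynomial.induction_on' with
    | add f g hf hg =>
      rw [Polynomial.sum_add_index]
      · rw [← hf, ← hg]; simp [tc, taylor_apply]
      · intro b; simp
      · intro b g1 g2
        rw [Polynomial.sum_add_index]
        · intro a; simp
        · intro a c1 c2; ring
    | monomial b g =>
      rw [Polynomial.sum_monomial_index _ _ (by simp)]
      have h1 : (taylor (C y) (monomial b g)).coeff k = g * C (y ^ (b - k) * (b.choose k : R)) := by
        rw [taylor_monomial, coeff_C_mul, coeff_X_add_C_pow]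
        simp
      rw [tc, h1, taylor_mul, taylor_C, coeff_mul_C]
      induction g using Polynomial.induction_on' with
      | add p q hp hq =>
        have hp' := hp (by
          rw [taylor_monomial, coeff_C_mul, coeff_X_add_C_pow]
          simp)
        have hq' := hq (by
          rw [taylor_monomial, coeff_C_mul, coeff_X_add_C_pow]
          simp)
        rw [Polynomial.sum_add_index]
        · rw [← hp', ← hq', map_add, coeff_add]; ring
        · intro a; simp
        · intro a c1 c2; ring
      | monomial a c =>
        rw [Polynomial.sum_monomial_index _ _ (by simp), taylor_monomial, coeff_C_mul,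
          coeff_X_add_C_pow]
        ring
  map := by
    intro R R' _ _ φ f x y i k
    have h1 : taylor (C (φ y)) (f.map (mapRingHom φ)) = (taylor (C y) f).map (mapRingHom φ) := by
      rw [map_taylor]; simp
    rw [tc, tc, h1, coeff_map, coe_mapRingHom, ← map_taylor, coeff_map]
  add := by
    intro R _ f g x y i k
    simp [tc]
  smul := by
    intro R _ c f x y i k
    rw [tc, tc, taylor_mul, taylor_C, coeff_C_mul, taylor_mul, taylor_C, coeff_C_mul]
  rows := fun m x y f => rows_pf m x y f
  rows0 := by
    intro R _ m x f
    have := rows_pf m x 0 f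
    rwa [C_0, taylor_zero] at this
  shift := by
    intro R _ m x y p f
    rw [rows_pf, rows_pf]
    have hq : (X - C x) ∣ p - C (p.eval x) := X_sub_C_dvd_sub_C_eval
    have e1 : taylor (C y) (taylor p f) =
        taylor (p - C (p.eval x)) (taylor (C (y + p.eval x)) f) := by
      rw [taylor_taylor, taylor_taylor]
      congr 1
      congr 1
      rw [C_add]; ring
    have e2 : taylor (C (y + p.eval x)) f =
        taylor (-(p - C (p.eval x))) (taylor (C y) (taylor p f)) := by
      rw [taylor_taylor, taylor_taylor]
      congr 1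
      congr 1
      rw [C_add]; ring
    constructor
    · intro h
      rw [e1, taylor_apply]
      exact h.comp (Wt.of_add hq)
    · intro h
      rw [e2, taylor_apply]
      exact h.comp (Wt.of_add ((dvd_neg).2 hq))
  mul := by
    intro R _ m x y h f hf
    rw [rows_pf] at *
    rw [taylor_mul]
    have := (Wt.zero x (taylor (C y) h)).mul hf
    rwa [zero_add] at this
  mulC := by
    intro R _ _ m x y g f hg hf
    rw [rows_pf] at *
    intro k hk
    have h1 := hf k hk
    rw [taylor_mul, taylor_C, coeff_C_mul] at h1
    exact (prime_X_sub_C x).pow_dvd_of_dvd_mul_left _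
      (fun h => hg ((dvd_iff_isRoot.1 h))) h1
  mulX0 := by
    intro R _ m x H f hf
    have e := rows_pf (m := m) x 0 (X ^ H * f)
    have e' := rows_pf (m := m - H) x 0 f
    rw [C_0, taylor_zero] at e e'
    rw [e'] 
    rw [e] at hf
    intro k hk
    have := hf (k + H) (by omega)
    rw [coeff_X_pow_mul] at this
    have e2 : m - (k + H) = m - H - k := by omega
    rwa [e2] at this
  mulX := by
    intro R _ _ m x y H f hy
    induction H generalizing f with
    | zero => intro h; simpa using h
    | succ H ih =>
      intro h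
      have h' : VO m x y (X ^ H * (X * f)) := by rwa [← mul_assoc, ← pow_succ]
      have h1 := ih h'
      rw [rows_pf] at h1 ⊢
      rw [taylor_mul, taylor_X] at h1
      set g := taylor (C y) f with hg
      have hpr : ¬ (X - C x) ∣ C y := fun h => hy (by simpa using dvd_iff_isRoot.1 h)
      intro k
      induction k with
      | zero =>
        intro hk
        have h2 := h1 0 hk
        rw [add_mul, coeff_add, coeff_C_mul] at h2
        simp only [mul_coeff_zero, coeff_X_zero, zero_mul, zero_add] at h2
        exact (prime_X_sub_C x).pow_dvd_of_dvd_mul_left _ hpr h2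
      | succ k ihk =>
        intro hk
        have h2 := h1 (k + 1) hk
        rw [add_mul, coeff_add, coeff_C_mul, coeff_X_mul] at h2
        have h3 : (X - C x) ^ (m - (k + 1)) ∣ g.coeff k :=
          (pow_dvd_pow _ (by omega)).trans (ihk (by omega))
        exact (prime_X_sub_C x).pow_dvd_of_dvd_mul_left _ hpr ((dvd_add_right h3).1 h2)
  substY := by
    intro R _ m x u Q f hf
    rw [rows_pf] at *
    have e : taylor (C u) (f.comp (C Q * X)) = (taylor (C (u * Q.eval x)) f).comp
        (C Q * (X + C (C u)) - C (C (u * Q.eval x))) := by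
      rw [taylor_apply, taylor_apply, comp_assoc, comp_assoc]
      congr 1
      simp
    rw [e]
    refine hf.comp ?_
    intro k hk
    have : k = 0 := by omega
    subst this
    have hq : (X - C x) ∣ Q - C (Q.eval x) := X_sub_C_dvd_sub_C_eval
    have e2 : (C Q * (X + C (C u)) - C (C (u * Q.eval x))).coeff 0 =
        C u * (Q - C (Q.eval x)) := by
      rw [coeff_sub, coeff_C_mul, coeff_add, coeff_X_zero, coeff_C_zero, coeff_C_zero, C_mul]
      ring
    rw [e2]
    simpa using hq.mul_left (C u)
  substX := by
    intro R _ m x y t f hf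
    rw [rows_pf] at *
    intro k hk
    have e : taylor (C y) (f.map (compRingHom (C t * X))) =
        (taylor (C y) f).map (compRingHom (C t * X)) := by
      rw [map_taylor]; simp
    rw [e, coeff_map]
    have h1 := map_dvd (compRingHom (C t * X)) (hf k hk)
    refine dvd_trans ?_ h1
    rw [map_pow]
    refine pow_dvd_pow_of_dvd ?_ _
    have e3 : compRingHom (C t * X) (X - C (t * x)) = C t * (X - C x) := by
      simp [coe_compRingHom_apply, mul_sub]
    rw [e3]
    exact dvd_mul_left _ _
  corner := by
    intro R _ m f
    constructor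
    · intro h a b hab
      have := h a b hab
      rwa [tc, C_0, taylor_zero, taylor_zero] at this
    · intro h i k hik
      rw [tc, C_0, taylor_zero, taylor_zero]
      exact h i k hik

end Pool.Agent.Q104.CH
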